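import Mathlib
import Pool.Agent.Helper832.GDStmt
import Pool.Agent.Helper832.GDV
import Pool.Agent.Helper832.GDU
import Pool.Agent.H724R3.N.Comm3
import Pool.Agent.H724R3.N.TBeta

set_option autoImplicit false

/-!
The global dimension and the bidimension of the Banach algebra of continuous functions on the
Stone-Cech compactification of the natural numbers are infinite.  The bidimension is infinite both
when it is computed from the unitization and when it is computed from the algebra itself, regarded
as a bimodule.
-/

namespace Pool.Agent.Results.MP_4953ed_an.GlobalInfinite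

open Pool.Agent.Helper832.GS Pool.Agent.H724R3.N

/-- The global dimension and the bidimension of the algebra of continuous functions on the
Stone-Cech compactification of the natural numbers are infinite. -/
theorem result :
    dg C(StoneCech ℕ, ℂ) = ⊤ ∧ db C(StoneCech ℕ, ℂ) = ⊤ ∧ (regB C(StoneCech ℕ, ℂ)).dh = ⊤ := by
  obtain ⟨f, hf⟩ := taskBeta
  obtain ⟨h1, h2⟩ := comm3 (StoneCech ℕ) f hf
  refine ⟨?_, h1, h2⟩
  rw [← h1]
  exact dg_eq_db fun _ _ _ _ _ _ _ _ l r h1 h2 h3 h4 h5 =>
    Pool.Agent.Helper832.RT.retract l r ⟨h1, h2, h3, h4, h5⟩

end Pool.Agent.Results.MP_4953ed_an.GlobalInfinite
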